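import Pool.Agent.H11.NY.Targets

/-!
# Module AC5 of the board ny_modules
-/

set_option autoImplicit false

open Pool.Agent.H11.NY

namespace Pool.Agent.H19.NY.AC5

/-- operators of finite order prime to the characteristic are semisimple -/
theorem semisimple {K : Type} [Field K] {d : ℕ} (T : Module.End K (Fin d → K)) (n : ℕ)
    (hn : (n : K) ≠ 0) (hT : T ^ n = 1) : T.IsSemisimple := by
  have h1 : (Polynomial.X ^ n - 1 : Polynomial K).Separable :=
    Polynomial.X_pow_sub_one_separable_iff.2 hn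
  refine Module.End.isSemisimple_of_squarefree_aeval_eq_zero h1.squarefree ?_
  simp [hT]

/-- the joint eigenspaces span -/
theorem joint_top {K : Type} [Field K] [IsAlgClosed K] {d : ℕ}
    (u w : Module.End K (Fin d → K)) (huw : u * w = w * u) (m n : ℕ) (hm : (m : K) ≠ 0)
    (hn : (n : K) ≠ 0) (hu : u ^ m = 1) (hw : w ^ n = 1) :
    (⨆ x : K × K, (Module.End.eigenspace u x.1 ⊓ Module.End.eigenspace w x.2)) = ⊤ := by
  have hsu := semisimple u m hm hu
  have hsw := semisimple w n hn hw
  let f : Fin 2 → Module.End K (Fin d → K) := ![u, w]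
  have hcomm : Pairwise (Function.onFun Commute f) := by
    intro i j hij
    fin_cases i <;> fin_cases j
    · exact absurd rfl hij
    · exact huw
    · exact huw.symm
    · exact absurd rfl hij
  have h1 := Module.End.iSup_iInf_maxGenEigenspace_eq_top_of_iSup_maxGenEigenspace_eq_top_of_commute
    f hcomm (fun i => Module.End.iSup_maxGenEigenspace_eq_top (f i))
  rw [eq_top_iff, ← h1]
  refine iSup_le fun χ => ?_
  refine le_trans ?_ (le_iSup (fun x : K × K =>
    (Module.End.eigenspace u x.1 ⊓ Module.End.eigenspace w x.2)) (χ 0, χ 1))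
  refine le_inf ?_ ?_
  · refine (iInf_le _ 0).trans ?_
    have : (f 0).maxGenEigenspace (χ 0) = Module.End.eigenspace u (χ 0) :=
      hsu.isFinitelySemisimple.maxGenEigenspace_eq_eigenspace (χ 0)
    rw [this]
  · refine (iInf_le _ 1).trans ?_
    have : (f 1).maxGenEigenspace (χ 1) = Module.End.eigenspace w (χ 1) :=
      hsw.isFinitelySemisimple.maxGenEigenspace_eq_eigenspace (χ 1)
    rw [this]

theorem pow_eig {K V : Type} [Field K] [AddCommGroup V] [Module K V] {T : Module.End K V}
    {v : V} {x : K} (h : T v = x • v) (n : ℕ) : (T ^ n) v = x ^ n • v := by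
  induction n with
  | zero => simp
  | succ n ih =>
    rw [pow_succ, Module.End.mul_apply, h, map_smul, ih, smul_smul, ← pow_succ']

theorem pow_eq_one_of_eig {K V : Type} [Field K] [AddCommGroup V] [Module K V]
    {T : Module.End K V} {v : V} {x : K} {n : ℕ} (hT : T ^ n = 1) (hv : v ≠ 0)
    (h : T v = x • v) : x ^ n = 1 := by
  have h1 := pow_eig h n
  rw [hT, Module.End.one_apply] at h1
  have h2 : (1 : K) • v = x ^ n • v := by rw [one_smul]; exact h1
  exact (smul_left_injective K hv h2).symm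

theorem card_closure {L : Type} [Group L] [Finite L] {q p : ℕ} (hq : q.Prime) (hp : p.Prime)
    {a h : L} (ha : a ^ q = 1) (ha1 : a ≠ 1) (hah : a * h = h * a)
    (hh : h ∉ Subgroup.zpowers a) (hhp : h ^ p ∈ Subgroup.zpowers a) :
    Nat.card (Subgroup.closure {a, h}) = q * p := by
  have hc : Commute a h := hah
  have horda : orderOf a = q := by
    rcases (Nat.dvd_prime hq).1 (orderOf_dvd_of_pow_eq_one ha) with h1 | h1
    · exact absurd (orderOf_eq_one_iff.1 h1) ha1
    · exact h1
  have haE : a ∈ Subgroup.closure {a, h} := Subgroup.subset_closure (by simp)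
  have hhE : h ∈ Subgroup.closure {a, h} := Subgroup.subset_closure (by simp)
  let f : Fin q × Fin p → Subgroup.closure {a, h} := fun x =>
    ⟨a ^ (x.1 : ℕ) * h ^ (x.2 : ℕ), Subgroup.mul_mem _ (Subgroup.pow_mem _ haE _)
      (Subgroup.pow_mem _ hhE _)⟩
  have key : ∀ k : ℕ, k < p → h ^ k ∈ Subgroup.zpowers a → k = 0 := by
    intro k hk hmem
    by_contra hk0
    have hcop : Nat.Coprime k p :=
      Nat.Coprime.symm ((Nat.Prime.coprime_iff_not_dvd hp).2
        (Nat.not_dvd_of_pos_of_lt (Nat.pos_of_ne_zero hk0) hk))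
    apply hh
    have h1 : h ^ (1 : ℤ) = h ^ ((k : ℤ) * Nat.gcdA k p + (p : ℤ) * Nat.gcdB k p) := by
      rw [← Nat.gcd_eq_gcd_ab, hcop]
      simp
    rw [zpow_one] at h1
    rw [h1, zpow_add, zpow_mul, zpow_mul, zpow_natCast, zpow_natCast]
    exact Subgroup.mul_mem _ (Subgroup.zpow_mem _ hmem _) (Subgroup.zpow_mem _ hhp _)
  have main : ∀ i i' j j' : ℕ, i < q → i' < q → j < p → j' < p → j ≤ j' →
      a ^ i * h ^ j = a ^ i' * h ^ j' → i = i' ∧ j = j' := by
    intro i i' j j' hi hi' hj hj' hle heq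
    obtain ⟨k, rfl⟩ := Nat.exists_eq_add_of_le hle
    have h1 : h ^ k = (a ^ i')⁻¹ * a ^ i := by
      rw [Nat.add_comm, pow_add, ← mul_assoc] at heq
      have h2 := mul_right_cancel heq
      rw [h2]
      group
    have h3 : k = 0 := by
      apply key k (by omega)
      rw [h1]
      exact Subgroup.mul_mem _ (Subgroup.inv_mem _ (Subgroup.pow_mem _
        (Subgroup.mem_zpowers a) _)) (Subgroup.pow_mem _ (Subgroup.mem_zpowers a) _)
    subst h3
    refine ⟨?_, rfl⟩
    have h4 := mul_right_cancel heq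
    exact pow_injOn_Iio_orderOf (by simpa [horda] using hi) (by simpa [horda] using hi') h4
  have hinj : Function.Injective f := by
    rintro ⟨i, j⟩ ⟨i', j'⟩ heq
    have h1 : a ^ (i : ℕ) * h ^ (j : ℕ) = a ^ (i' : ℕ) * h ^ (j' : ℕ) :=
      congrArg Subtype.val heq
    rcases Nat.le_total (j : ℕ) (j' : ℕ) with hle | hle
    · obtain ⟨h2, h3⟩ := main i i' j j' i.2 i'.2 j.2 j'.2 hle h1
      exact Prod.ext (Fin.ext h2) (Fin.ext h3)
    · obtain ⟨h2, h3⟩ := main i' i j' j i'.2 i.2 j'.2 j.2 hle h1.symm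
      exact Prod.ext (Fin.ext h2.symm) (Fin.ext h3.symm)
  have gen : ∀ x ∈ Subgroup.closure {a, h}, ∃ i j : ℕ, x = a ^ i * h ^ j := by
    intro x hx
    induction hx using Subgroup.closure_induction with
    | mem z hz =>
      rcases hz with rfl | hz
      · exact ⟨1, 0, by simp⟩
      · rw [Set.mem_singleton_iff] at hz
        subst hz
        exact ⟨0, 1, by simp⟩
    | one => exact ⟨0, 0, by simp⟩
    | mul z w _ _ hz hw =>
      obtain ⟨i, j, rfl⟩ := hz
      obtain ⟨i', j', rfl⟩ := hw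
      refine ⟨i + i', j + j', ?_⟩
      rw [pow_add, pow_add]
      have h1 : h ^ j * a ^ i' = a ^ i' * h ^ j := ((hc.pow_pow i' j).eq).symm
      calc a ^ i * h ^ j * (a ^ i' * h ^ j') = a ^ i * (h ^ j * a ^ i') * h ^ j' := by group
        _ = a ^ i * (a ^ i' * h ^ j) * h ^ j' := by rw [h1]
        _ = a ^ i * a ^ i' * (h ^ j * h ^ j') := by group
    | inv z _ hz =>
      obtain ⟨i, j, rfl⟩ := hz
      set z := a ^ i * h ^ j with hzdef
      have hpos : 0 < orderOf z := orderOf_pos z
      have h1 : z⁻¹ = z ^ (orderOf z - 1) := by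
        rw [inv_eq_iff_mul_eq_one, ← pow_succ', Nat.sub_add_cancel hpos, pow_orderOf_eq_one]
      refine ⟨i * (orderOf z - 1), j * (orderOf z - 1), ?_⟩
      rw [h1, pow_mul, pow_mul, ← (hc.pow_pow i j).mul_pow]
  have hsurj : Function.Surjective f := by
    rintro ⟨x, hx⟩
    obtain ⟨i, j, rfl⟩ := gen x hx
    have h1 : (h ^ p) ^ (j / p) ∈ Subgroup.zpowers a := Subgroup.pow_mem _ hhp _
    obtain ⟨l, hl⟩ := (mem_powers_iff_mem_zpowers.2 h1)
    have hl' : a ^ l = (h ^ p) ^ (j / p) := hl
    refine ⟨(⟨(i + l) % q, Nat.mod_lt _ hq.pos⟩, ⟨j % p, Nat.mod_lt _ hp.pos⟩), ?_⟩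
    apply Subtype.ext
    change a ^ ((i + l) % q) * h ^ (j % p) = a ^ i * h ^ j
    have h2 : a ^ ((i + l) % q) = a ^ (i + l) := by
      rw [← horda, pow_mod_orderOf]
    rw [h2, pow_add, hl', mul_assoc, ← pow_mul, ← pow_add, Nat.div_add_mod]
  rw [← Nat.card_congr (Equiv.ofBijective f ⟨hinj, hsurj⟩)]
  simp

theorem pf_ac5 : T_AC4 → T_AC5 := by
  intro hAC4 K _ _ L _ _ d q p cM cZ b e a h u w hd hq hp hqe hpe hqK hpK haq ha1 hah hh huw huq
    hcase hcZ hcM hfin hsmall α β hα hβ
  by_contra hno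
  classical
  have hhp : h ^ p ∈ Subgroup.zpowers a := by
    rcases hcase with ⟨h1, -⟩ | ⟨h1, h2, -⟩
    · rw [h1]; exact Subgroup.one_mem _
    · rw [h1, h2]; exact Subgroup.mem_zpowers a
  have hE : Nat.card (Subgroup.closure {a, h}) = q * p :=
    card_closure hq hp haq ha1 hah hh hhp
  rw [hE] at hfin
  -- the possible joint eigenvalues
  obtain ⟨Y, hYcard, hYmem, hYall⟩ : ∃ Y : Finset (K × K), Y.card ≤ q * p ∧ (α, β) ∈ Y ∧
      ∀ x : K × K, x ∉ Y → Module.End.eigenspace u x.1 ⊓ Module.End.eigenspace w x.2 = ⊥ := by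
    rcases hcase with ⟨h1, h2⟩ | ⟨h1, h2, h3⟩
    · -- first case
      have hβ1 : β ^ p = 1 := by
        rcases hβ with ⟨-, h4⟩ | ⟨h4, h5, -⟩
        · exact h4
        · exact absurd (h5.symm.trans (h4 ▸ h1)) ha1
      refine ⟨(Polynomial.nthRoots q (1 : K)).toFinset ×ˢ
        (Polynomial.nthRoots p (1 : K)).toFinset, ?_, ?_, ?_⟩
      · rw [Finset.card_product]
        exact Nat.mul_le_mul
          ((Multiset.toFinset_card_le _).trans (Polynomial.card_nthRoots q 1))
          ((Multiset.toFinset_card_le _).trans (Polynomial.card_nthRoots p 1))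
      · rw [Finset.mem_product, Multiset.mem_toFinset, Multiset.mem_toFinset,
          Polynomial.mem_nthRoots hq.pos, Polynomial.mem_nthRoots hp.pos]
        exact ⟨hα, hβ1⟩
      · rintro ⟨x, y⟩ hxy
        rw [eq_bot_iff]
        rintro v ⟨hv1, hv2⟩
        rw [Submodule.mem_bot]
        by_contra hv0
        apply hxy
        rw [Finset.mem_product, Multiset.mem_toFinset, Multiset.mem_toFinset,
          Polynomial.mem_nthRoots hq.pos, Polynomial.mem_nthRoots hp.pos]
        have hv1' : u v = x • v := Module.End.mem_eigenspace_iff.1 hv1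
        have hv2' : w v = y • v := Module.End.mem_eigenspace_iff.1 hv2
        exact ⟨pow_eq_one_of_eig huq hv0 hv1', pow_eq_one_of_eig h2 hv0 hv2'⟩
    · -- second case
      subst h1
      have hβ1 : β ^ p = α := by
        rcases hβ with ⟨h4, -⟩ | ⟨-, -, h5⟩
        · exact absurd (h2.symm.trans h4) ha1
        · exact h5
      have hβ2 : β ^ (p * p) = 1 := by rw [pow_mul, hβ1, hα]
      have hww : w ^ (p * p) = 1 := by rw [pow_mul, h3, huq]
      have hpp : 0 < p * p := Nat.mul_pos hp.pos hp.pos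
      refine ⟨(Polynomial.nthRoots (p * p) (1 : K)).toFinset.image (fun y => (y ^ p, y)),
        ?_, ?_, ?_⟩
      · exact Finset.card_image_le.trans
          ((Multiset.toFinset_card_le _).trans (Polynomial.card_nthRoots (p * p) 1))
      · rw [Finset.mem_image]
        refine ⟨β, ?_, by rw [hβ1]⟩
        rw [Multiset.mem_toFinset, Polynomial.mem_nthRoots hpp]
        exact hβ2
      · rintro ⟨x, y⟩ hxy
        rw [eq_bot_iff]
        rintro v ⟨hv1, hv2⟩
        rw [Submodule.mem_bot]
        by_contra hv0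
        apply hxy
        have hv1' : u v = x • v := Module.End.mem_eigenspace_iff.1 hv1
        have hv2' : w v = y • v := Module.End.mem_eigenspace_iff.1 hv2
        rw [Finset.mem_image]
        refine ⟨y, ?_, ?_⟩
        · rw [Multiset.mem_toFinset, Polynomial.mem_nthRoots hpp]
          exact pow_eq_one_of_eig hww hv0 hv2'
        · have h6 : (w ^ p) v = y ^ p • v := pow_eig hv2' p
          rw [h3, hv1'] at h6
          have h7 : x = y ^ p := smul_left_injective K hv0 h6
          rw [← h7]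
  -- the joint eigenspace of `(α, β)` is trivial
  have hbot : Module.End.eigenspace u α ⊓ Module.End.eigenspace w β = ⊥ := by
    rw [eq_bot_iff]
    rintro v ⟨hv1, hv2⟩
    rw [Submodule.mem_bot]
    by_contra hv0
    exact hno ⟨v, hv0, Module.End.mem_eigenspace_iff.1 hv1, Module.End.mem_eigenspace_iff.1 hv2⟩
  have htop : (⨆ x : K × K, (Module.End.eigenspace u x.1 ⊓ Module.End.eigenspace w x.2)) = ⊤ := by
    rcases hcase with ⟨h1, h2⟩ | ⟨h1, h2, h3⟩
    · exact joint_top u w huw q p hqK hpK huq h2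
    · have hww : w ^ (q * q) = 1 := by rw [pow_mul, h3, huq]
      have hqq : ((q * q : ℕ) : K) ≠ 0 := by
        rw [Nat.cast_mul]
        exact mul_ne_zero hqK hqK
      exact joint_top u w huw q (q * q) hqK hqq huq hww
  have hX : (⨆ x ∈ Y.erase (α, β),
      (Module.End.eigenspace u x.1 ⊓ Module.End.eigenspace w x.2)) = ⊤ := by
    rw [eq_top_iff, ← htop]
    refine iSup_le fun x => ?_
    by_cases hx : x ∈ Y.erase (α, β)
    · exact le_iSup₂ (f := fun (x : K × K) (_ : x ∈ Y.erase (α, β)) =>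
        (Module.End.eigenspace u x.1 ⊓ Module.End.eigenspace w x.2)) x hx
    · have hz : Module.End.eigenspace u x.1 ⊓ Module.End.eigenspace w x.2 = ⊥ := by
        by_cases hxY : x ∈ Y
        · have : x = (α, β) := by
            by_contra hne
            exact hx (Finset.mem_erase.2 ⟨hne, hxY⟩)
          rw [this]
          exact hbot
        · exact hYall x hxY
      rw [hz]
      exact bot_le
  have hdd := hAC4 K d u w huw (Y.erase (α, β)) hX
  rw [Finset.card_erase_of_mem hYmem] at hdd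
  set D := Module.finrank K (Comm2 u w) with hD
  have hYpos : 1 ≤ Y.card := Finset.card_pos.2 ⟨_, hYmem⟩
  set N := q * p with hN
  have hNpos : 1 ≤ N := hYpos.trans hYcard
  have h1 : d * d ≤ (N - 1) * D := hdd.trans (Nat.mul_le_mul_right D (by omega))
  have hNe : N ≤ e * e := Nat.mul_le_mul hqe hpe
  -- arithmetic
  obtain ⟨M, hM⟩ : ∃ M, N = M + 1 := ⟨N - 1, by omega⟩
  have h2 : N * cM ≤ M * (cM + N * b) := by
    calc N * cM = (d * d) * (N * cZ) := by rw [hcM]; ring
      _ ≤ ((N - 1) * D) * (N * cZ) := Nat.mul_le_mul_right _ h1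
      _ = M * (D * N * cZ) := by rw [hM, Nat.add_sub_cancel]; ring
      _ ≤ M * (cM + N * b) := Nat.mul_le_mul_left M hfin
  have h3 : cM ≤ M * (N * b) := by
    rw [hM] at h2 ⊢
    nlinarith
  have h4 : M * (N * b) ≤ e ^ 6 * b := by
    have h5 : M ≤ e * e := by omega
    have h6 : M * (N * b) ≤ (e * e) * ((e * e) * b) :=
      Nat.mul_le_mul h5 (Nat.mul_le_mul_right b hNe)
    have he1 : 1 ≤ e := by
      rcases Nat.eq_zero_or_pos e with h0 | h0
      · subst h0; omega
      · exact h0
    have h7 : (e * e) * ((e * e) * b) ≤ e ^ 6 * b := by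
      have h8 : e ^ 4 ≤ e ^ 6 := Nat.pow_le_pow_right he1 (by norm_num)
      calc (e * e) * ((e * e) * b) = e ^ 4 * b := by ring
        _ ≤ e ^ 6 * b := Nat.mul_le_mul_right b h8
    exact h6.trans h7
  omega

end Pool.Agent.H19.NY.AC5
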