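import Pool.Agent.H11.NY.Targets

/-!
# Module AF1 of the board ny_modules
-/

set_option autoImplicit false

open Pool.Agent.H11.NY

namespace Pool.Agent.H19.NY.AF1

/-- a subgroup that is perfect modulo `C` and lies in `C ⊔ N` with `N` soluble lies in `C` -/
theorem le_of_perfect {L : Type} [Group L] (C N A : Subgroup L) [C.Normal]
    (hsol : Group.IsSolvable N) (hAN : A ≤ C ⊔ N) (hA : A ≤ C ⊔ ⁅A, A⁆) : A ≤ C := by
  let π := QuotientGroup.mk' C
  have hker : π.ker = C := QuotientGroup.ker_mk' C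
  have hCmap : C.map π = ⊥ := by
    rw [Subgroup.map_eq_bot_iff, hker]
  have key : ∀ k : ℕ, A.map π ≤ ((derivedSeries N k).map N.subtype).map π := by
    intro k
    induction k with
    | zero =>
      have h1 : (derivedSeries N 0).map N.subtype = N := by
        rw [derivedSeries_zero, ← MonoidHom.range_eq_map, Subgroup.range_subtype]
      rw [h1]
      refine (Subgroup.map_mono hAN).trans ?_
      rw [Subgroup.map_sup, hCmap, bot_sup_eq]
    | succ k ih =>
      have h1 : A.map π ≤ ⁅A.map π, A.map π⁆ := by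
        refine (Subgroup.map_mono hA).trans ?_
        rw [Subgroup.map_sup, hCmap, bot_sup_eq, Subgroup.map_commutator]
      refine h1.trans ((Subgroup.commutator_mono ih ih).trans ?_)
      rw [derivedSeries_succ, Subgroup.map_commutator, Subgroup.map_commutator]
  obtain ⟨n, hn⟩ := hsol.solvable
  have h2 := key n
  rw [hn, Subgroup.map_bot, Subgroup.map_bot, le_bot_iff, Subgroup.map_eq_bot_iff, hker] at h2
  exact h2

theorem pf_af1 : T_AF1 := by
  intro L _ _ N hN hsol M hM hNM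
  set C := M.normalCore with hC
  have hCM : C ≤ M := Subgroup.normalCore_le M
  have hCn : C.Normal := Subgroup.normalCore_normal M
  let P : Subgroup L → Prop := fun A => A.Normal ∧ C < A ∧ A ≤ C ⊔ N
  have hP : ∃ A, P A := by
    refine ⟨C ⊔ N, Subgroup.sup_normal C N, ?_, le_rfl⟩
    refine lt_of_le_of_ne le_sup_left ?_
    intro h
    apply hNM
    exact (le_sup_right.trans h.symm.le).trans hCM
  obtain ⟨A, hA⟩ := exists_minimal_of_wellFoundedLT P hP
  obtain ⟨⟨hAn, hCA, hAN⟩, hmin⟩ := hA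
  have hsup : ∀ B : Subgroup L, B.Normal → C < B → B ≤ A → A ≤ B := by
    intro B hB1 hB2 hB3
    exact hmin ⟨hB1, hB2, hB3.trans hAN⟩ hB3
  -- `A` is abelian modulo `C`
  have hcomm : ⁅A, A⁆ ≤ C := by
    have hcn : (⁅A, A⁆ : Subgroup L).Normal := Subgroup.commutator_normal A A
    by_contra hcon
    have h1 : C < C ⊔ ⁅A, A⁆ := by
      refine lt_of_le_of_ne le_sup_left ?_
      intro h
      exact hcon (le_sup_right.trans h.symm.le)
    have h2 : A ≤ C ⊔ ⁅A, A⁆ :=
      hsup _ (Subgroup.sup_normal C _) h1 (sup_le hCA.le (Subgroup.commutator_le_right A A))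
    exact not_le_of_gt hCA (le_of_perfect C N A hsol hAN h2)
  have hcomm' : ∀ x ∈ A, ∀ y ∈ A, x * y * x⁻¹ * y⁻¹ ∈ C := by
    intro x hx y hy
    exact hcomm (Subgroup.commutator_mem_commutator hx hy)
  -- an element of prime order modulo `C`
  obtain ⟨y, hyA, hyC⟩ := SetLike.exists_of_lt hCA
  let π := QuotientGroup.mk' C
  have hπ : ∀ z : L, π z = 1 ↔ z ∈ C := fun z => by
    rw [← MonoidHom.mem_ker, QuotientGroup.ker_mk']
  have hfin : Finite (L ⧸ C) := inferInstance
  have hord : 0 < orderOf (π y) := orderOf_pos _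
  have hne1 : orderOf (π y) ≠ 1 := by
    rw [Ne, orderOf_eq_one_iff, hπ]
    exact hyC
  obtain ⟨r, hr, hrd⟩ := Nat.exists_prime_and_dvd hne1
  obtain ⟨m, hm⟩ := hrd
  have hmpos : 0 < m := by
    rcases Nat.eq_zero_or_pos m with h | h
    · rw [h, Nat.mul_zero] at hm; omega
    · exact h
  have hxr : (y ^ m) ^ (r ^ 1) ∈ C := by
    rw [← hπ, pow_one, ← pow_mul, map_pow, mul_comm m r, ← hm, pow_orderOf_eq_one]
  have hxC : y ^ m ∉ C := by
    rw [← hπ, map_pow]
    intro h
    have := orderOf_dvd_of_pow_eq_one h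
    rw [hm] at this
    have h3 := Nat.le_of_dvd hmpos this
    have h4 := hr.two_le
    nlinarith
  -- the `r`-part
  have hpow : ∀ z ∈ A, ∀ w ∈ A, ∀ k : ℕ, π ((z * w) ^ k) = π z ^ k * π w ^ k := by
    intro z hz w hw k
    rw [map_pow, map_mul]
    have hc : Commute (π z) (π w) := by
      have h5 : π (z * w * z⁻¹ * w⁻¹) = 1 := (hπ _).2 (hcomm' z hz w hw)
      rw [map_mul, map_mul, map_mul, map_inv, map_inv] at h5
      have h6 : π z * π w = π w * π z := by
        have := mul_inv_eq_one.1 h5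
        rw [mul_inv_eq_iff_eq_mul] at this
        exact this
      exact h6
    exact hc.mul_pow k
  let Ar : Subgroup L :=
    { carrier := {x | x ∈ A ∧ ∃ k : ℕ, x ^ (r ^ k) ∈ C}
      one_mem' := ⟨A.one_mem, 0, by simp [C.one_mem]⟩
      mul_mem' := by
        rintro z w ⟨hz, k, hk⟩ ⟨hw, l, hl⟩
        refine ⟨A.mul_mem hz hw, k + l, ?_⟩
        rw [← hπ, hpow z hz w hw]
        rw [← hπ, map_pow] at hk hl
        rw [pow_add, pow_mul, hk, one_pow, mul_comm (r ^ k), pow_mul, hl, one_pow, mul_one]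
      inv_mem' := by
        rintro z ⟨hz, k, hk⟩
        refine ⟨A.inv_mem hz, k, ?_⟩
        rw [inv_pow]
        exact C.inv_mem hk }
  have hArn : Ar.Normal := by
    constructor
    rintro z ⟨hz, k, hk⟩ g
    refine ⟨hAn.conj_mem z hz g, k, ?_⟩
    rw [conj_pow]
    exact hCn.conj_mem _ hk g
  have hCAr : C < Ar := by
    refine lt_of_le_of_ne (fun z hz => ⟨hCA.le hz, 0, by simpa using hz⟩) ?_
    intro h
    apply hxC
    rw [h]
    exact ⟨A.pow_mem hyA m, 1, hxr⟩
  have hAAr : A ≤ Ar := hsup Ar hArn hCAr (fun z hz => hz.1)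
  -- `A` is not contained in `M`
  have hAM : ¬ A ≤ M := by
    intro h
    exact not_le_of_gt hCA (Subgroup.normal_le_normalCore.2 h)
  have htop : A ⊔ M = ⊤ := by
    have h7 : M < A ⊔ M := by
      refine lt_of_le_of_ne le_sup_right ?_
      intro h
      exact hAM (le_sup_left.trans h.symm.le)
    exact hM.2 _ h7
  have hcover : ∀ y : L, ∃ x ∈ A, x⁻¹ * y ∈ M := by
    intro y
    have hy : y ∈ A ⊔ M := by rw [htop]; trivial
    obtain ⟨x, hx, m, hm, rfl⟩ := Subgroup.mem_sup_of_normal_left.1 hy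
    exact ⟨x, hx, by simpa using hm⟩
  -- the intersection is normal
  have hint : A ⊓ M ≤ C := by
    have hnorm : (A ⊓ M).Normal := by
      constructor
      rintro z ⟨hz, hzM⟩ g
      obtain ⟨x, hx, hm⟩ := hcover g
      refine ⟨hAn.conj_mem z hz g, ?_⟩
      have h8 : g * z * g⁻¹ = x * ((x⁻¹ * g) * z * (x⁻¹ * g)⁻¹) * x⁻¹ := by group
      rw [h8]
      set w := (x⁻¹ * g) * z * (x⁻¹ * g)⁻¹ with hw
      have hwM : w ∈ M := M.mul_mem (M.mul_mem hm hzM) (M.inv_mem hm)
      have hwA : w ∈ A := hAn.conj_mem z hz _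
      have h9 : x * w * x⁻¹ = (x * w * x⁻¹ * w⁻¹) * w := by group
      rw [h9]
      exact M.mul_mem (hCM (hcomm' x hx w hwA)) hwM
    exact Subgroup.normal_le_normalCore.2 inf_le_right
  exact ⟨r, A, hr, hAn, hcomm', fun x hx => (hAAr hx).2, hCA.le,
    fun x hx hxM => hint ⟨hx, hxM⟩, hcover⟩

end Pool.Agent.H19.NY.AF1
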