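import Pool.Agent.H11.NY.Targets

/-!
# Module BP of the board ny_modules
-/

set_option autoImplicit false

open Equiv (Perm)
open Pool.Agent.H11.NY

namespace Pool.Agent.H19.NY.BP

theorem lpair_mono {Ω : Type} [Fintype Ω] [DecidableEq Ω] {e B B' q s : ℕ} {a h : Perm Ω}
    (hB : B' ≤ B) (H : LPair e B q s a h) : LPair e B' q s a h := by
  obtain ⟨h1, h2, h3, h4, h5, h6, h7, h8, h9⟩ := H
  exact ⟨h1, h2, h3, h4, h5, h6, h7, hB.trans h8, fun κ hκ => hB.trans (h9 κ hκ)⟩

theorem pf_bp : T_DEN → T_TC → T_IMP → T_INT → T_BP := by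
  intro hDEN hTC hIMP hINT e
  obtain ⟨k₀, B₁, h₁⟩ := hDEN e
  obtain ⟨n₀, h₀⟩ := hTC k₀
  obtain ⟨B₂, h₂⟩ := hIMP e
  obtain ⟨B₃, h₃⟩ := hINT e
  refine ⟨max (max B₁ n₀) (max B₂ B₃), ?_⟩
  intro Ω _ _ q s a h hL U hU hT
  by_contra hfix
  push Not at hfix
  have hL₁ : LPair e B₁ q s a h := lpair_mono ((le_max_left _ _).trans (le_max_left _ _)) hL
  have hL₂ : LPair e B₂ q s a h := lpair_mono ((le_max_left _ _).trans (le_max_right _ _)) hL
  have hL₃ : LPair e B₃ q s a h := lpair_mono ((le_max_right _ _).trans (le_max_right _ _)) hL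
  have hcard : n₀ ≤ Fintype.card Ω := by
    have h1 : n₀ ≤ a.support.card :=
      ((le_max_right B₁ n₀).trans (le_max_left _ _)).trans hL.2.2.2.2.2.2.2.1
    exact h1.trans (Finset.card_le_univ _)
  -- orbits
  classical
  have orb : ∀ ω : Ω, ∃ S : Finset Ω, (∀ x, x ∈ S ↔ x ∈ MulAction.orbit U ω) :=
    fun ω => ⟨Finset.univ.filter (fun x => x ∈ MulAction.orbit U ω), by simp⟩
  choose S hS using orb
  have inv : ∀ ω, ∀ u ∈ U, ∀ x ∈ S ω, u x ∈ S ω := by
    intro ω u hu x hx
    rw [hS] at hx ⊢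
    have := MulAction.mem_orbit_of_mem_orbit (⟨u, hu⟩ : U) hx
    simpa [Subgroup.smul_def] using this
  have self : ∀ ω, ω ∈ S ω := fun ω => (hS ω ω).2 (MulAction.mem_orbit_self ω)
  have two : ∀ ω, 2 ≤ (S ω).card := by
    intro ω
    obtain ⟨u, hu, hne⟩ := hfix ω
    exact Finset.one_lt_card.2 ⟨u ω, inv ω u hu ω (self ω), ω, self ω, hne⟩
  have all : ∀ ω, S ω = Finset.univ := by
    intro ω
    by_contra hne
    obtain ⟨ω', hω'⟩ : ∃ ω', ω' ∉ S ω := by
      by_contra hcon
      push Not at hcon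
      exact hne (Finset.eq_univ_iff_forall.2 hcon)
    have hdisj : Disjoint (S ω) (S ω') := by
      rw [Finset.disjoint_left]
      intro x hx hx'
      rw [hS] at hx hx'
      apply hω'
      rw [hS]
      have h1 : MulAction.orbit U x = MulAction.orbit U ω := MulAction.orbit_eq_iff.2 hx
      have h2 : MulAction.orbit U x = MulAction.orbit U ω' := MulAction.orbit_eq_iff.2 hx'
      rw [← h1, h2]
      exact MulAction.mem_orbit_self ω'
    have hc : (S ω).card + (S ω').card ≤ Fintype.card Ω := by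
      rw [← Finset.card_union_of_disjoint hdisj]
      exact Finset.card_le_univ _
    exact h₃ Ω q s a h hL₃ U hT (S ω) (inv ω) (two ω) (by have := two ω'; omega)
  have htrans : MulAction.IsPretransitive U Ω := by
    constructor
    intro x y
    have : y ∈ S x := by rw [all x]; exact Finset.mem_univ y
    rw [hS] at this
    exact this
  have hprim : MulAction.IsPreprimitive U Ω := by
    refine { htrans with isTrivialBlock_of_isBlock := ?_ }
    intro Δ hΔ
    by_cases hu : Δ = Set.univ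
    · exact Or.inr hu
    · left
      intro x hx y hy
      exact h₂ Ω q s a h hL₂ U hT htrans Δ hΔ hu x hx y hy
  obtain ⟨u, huU, hu3⟩ := h₀ Ω U hcard (h₁ Ω q s a h hL₁ U hT)
  have hle : alternatingGroup Ω ≤ U :=
    Equiv.Perm.alternatingGroup_le_of_isPreprimitive_of_isThreeCycle_mem hprim hu3 huU
  exact absurd hU (not_lt_of_ge hle)

end Pool.Agent.H19.NY.BP
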