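import Pool.Agent.H11.NY.Targets

/-!
# Module GZ of the board ny_modules
-/

set_option autoImplicit false

open Pool.Agent.H11.NY

namespace Pool.Agent.H19.NY.GZ

/-- elements of a normal closure are products of finitely many conjugates -/
theorem exists_finset {G : Type} [Group G] (x : G) (y : G)
    (hy : y ∈ Subgroup.normalClosure ({x} : Set G)) :
    ∃ F : Finset G, y ∈ Subgroup.closure ((fun f => f * x * f⁻¹) '' (F : Set G)) := by
  classical
  induction hy using Subgroup.closure_induction with
  | mem z hz =>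
    obtain ⟨a, ha, hc⟩ := Group.mem_conjugatesOfSet_iff.1 hz
    rw [Set.mem_singleton_iff] at ha
    subst ha
    obtain ⟨c, hc⟩ := isConj_iff.1 hc
    refine ⟨{c}, Subgroup.subset_closure ?_⟩
    exact ⟨c, by simp, hc⟩
  | one => exact ⟨∅, Subgroup.one_mem _⟩
  | mul z w _ _ hz hw =>
    obtain ⟨F₁, h₁⟩ := hz
    obtain ⟨F₂, h₂⟩ := hw
    refine ⟨F₁ ∪ F₂, Subgroup.mul_mem _ (Subgroup.closure_mono ?_ h₁)
      (Subgroup.closure_mono ?_ h₂)⟩
    · apply Set.image_mono
      simp
    · apply Set.image_mono
      simp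
  | inv z _ hz =>
    obtain ⟨F, hF⟩ := hz
    exact ⟨F, Subgroup.inv_mem _ hF⟩

/-- the alternating group of degree at least five equals its derived groups -/
theorem alt_derived (n d : ℕ) (hn : 5 ≤ n) : derivedSeries (alternatingGroup (Fin n)) d = ⊤ := by
  induction d with
  | zero => rfl
  | succ d ih =>
    rw [derivedSeries_succ, ih]
    exact commutator_alternatingGroup_eq_top (by simpa using hn)

theorem pf_gz : T_GZ := by
  intro G _ _ π hcov x hx
  classical
  -- a prime outside `π`
  obtain ⟨u, hu, hup⟩ := Nat.exists_infinite_primes (max 5 (π.sup id + 1))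
  have hu5 : 5 ≤ u := (le_max_left _ _).trans hu
  have huπ : u ∉ π := by
    intro h
    have h1 : u ≤ π.sup id := Finset.le_sup (f := id) h
    have h2 : π.sup id + 1 ≤ u := (le_max_right _ _).trans hu
    omega
  obtain ⟨L₀, n₀, φ₀, ⟨hfin₀, hsurj₀, d₀, hd₀⟩, -, hn₀⟩ := hcov ∅ u
  -- the normal closure of `x` is everything
  have htop : Subgroup.normalClosure ({x} : Set G) = ⊤ := by
    rcases (Subgroup.normalClosure_normal (s := ({x} : Set G))).eq_bot_or_eq_top with h | h
    · exfalso
      apply hx
      have : x ∈ Subgroup.normalClosure ({x} : Set G) :=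
        Subgroup.subset_normalClosure (Set.mem_singleton x)
      rw [h] at this
      exact Subgroup.mem_bot.1 this
    · exact h
  have hex : ∀ y : L₀, ∃ F : Finset G,
      (y : G) ∈ Subgroup.closure ((fun f => f * x * f⁻¹) '' (F : Set G)) := by
    intro y
    exact exists_finset x y (by rw [htop]; trivial)
  choose F hF using hex
  have hft : Fintype L₀ := Fintype.ofFinite L₀
  refine ⟨Finset.univ.biUnion F, ?_⟩
  intro L n φ ⟨hfin, hsurj, d, hd⟩ hFL hxL hφ
  -- `L₀` lies in the kernel
  have hsub : L₀ ≤ φ.ker.map L.subtype := by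
    intro y hy
    have h1 := hF ⟨y, hy⟩
    have h2 : Subgroup.closure ((fun f => f * x * f⁻¹) '' (F ⟨y, hy⟩ : Set G)) ≤
        φ.ker.map L.subtype := by
      rw [Subgroup.closure_le]
      rintro _ ⟨f, hf, rfl⟩
      have hfL : f ∈ L := hFL f (Finset.mem_biUnion.2 ⟨⟨y, hy⟩, Finset.mem_univ _, hf⟩)
      refine ⟨⟨f, hfL⟩ * ⟨x, hxL⟩ * ⟨f, hfL⟩⁻¹, ?_, rfl⟩
      apply φ.normal_ker.conj_mem
      exact hφ
    exact h2 h1
  -- derived series
  have hder : ∀ k : ℕ, (derivedSeries L₀ k).map L₀.subtype ≤
      ((derivedSeries φ.ker k).map φ.ker.subtype).map L.subtype := by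
    intro k
    induction k with
    | zero =>
      have h1 : (derivedSeries L₀ 0).map L₀.subtype = L₀ := by
        rw [derivedSeries_zero, ← MonoidHom.range_eq_map, Subgroup.range_subtype]
      have h2 : (derivedSeries φ.ker 0).map φ.ker.subtype = φ.ker := by
        rw [derivedSeries_zero, ← MonoidHom.range_eq_map, Subgroup.range_subtype]
      rw [h1, h2]
      exact hsub
    | succ k ih =>
      rw [derivedSeries_succ, derivedSeries_succ, Subgroup.map_commutator,
        Subgroup.map_commutator, Subgroup.map_commutator]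
      exact Subgroup.commutator_mono ih ih
  have hc₀ : Nat.card ((derivedSeries L₀ d).map L₀.subtype) =
      Nat.card (derivedSeries L₀ d) :=
    Subgroup.card_map_of_injective (Subgroup.subtype_injective L₀)
  have hc₁ : Nat.card (((derivedSeries φ.ker d).map φ.ker.subtype).map L.subtype) =
      Nat.card (derivedSeries φ.ker d) := by
    rw [Subgroup.card_map_of_injective (Subgroup.subtype_injective L),
      Subgroup.card_map_of_injective (Subgroup.subtype_injective φ.ker)]
  have hdvd : Nat.card (derivedSeries L₀ d) ∣ Nat.card (derivedSeries φ.ker d) := by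
    rw [← hc₀, ← hc₁]
    exact Subgroup.card_dvd_of_le (hder d)
  -- the alternating quotient
  have halt : Nat.card (alternatingGroup (Fin n₀)) ∣ Nat.card (derivedSeries L₀ d) := by
    have h3 : (derivedSeries L₀ d).map φ₀ = ⊤ := by
      rw [map_derivedSeries_eq hsurj₀, alt_derived n₀ d (hu5.trans hn₀)]
    have h4 : Nat.card ((derivedSeries L₀ d).map φ₀) ∣ Nat.card (derivedSeries L₀ d) :=
      Subgroup.card_map_dvd (derivedSeries L₀ d) φ₀
    rw [h3, Subgroup.card_top] at h4
    exact h4
  have hudvd : u ∣ Nat.card (alternatingGroup (Fin n₀)) := by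
    have : Nontrivial (Fin n₀) := Fin.nontrivial_iff_two_le.2 (by omega)
    have h5 := two_mul_nat_card_alternatingGroup (α := Fin n₀)
    rw [Nat.card_perm, Nat.card_eq_fintype_card (α := Fin n₀), Fintype.card_fin] at h5
    have h6 : u ∣ 2 * Nat.card (alternatingGroup (Fin n₀)) := by
      rw [h5]
      exact (Nat.Prime.dvd_factorial hup).2 hn₀
    rcases (Nat.Prime.dvd_mul hup).1 h6 with h7 | h7
    · have := Nat.le_of_dvd (by norm_num) h7
      omega
    · exact h7
  exact huπ (hd u hup (hudvd.trans (halt.trans hdvd)))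

end Pool.Agent.H19.NY.GZ
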